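import Pool.Agent.H98.AM.Targets

/-!
# Modules A1-A5 of the board for MP_29bb0a_mp (critical almost Mathieu operator)
helper11
-/

open Polynomial
open scoped ComplexConjugate

noncomputable section

namespace Pool.Agent.H11.AM

open Pool.Agent.H98.AM

theorem cont_zero (B : ℤ → ℝ) (i : ℤ) : cont B i 0 = 1 := rfl

theorem cont_one (B : ℤ → ℝ) (i : ℤ) : cont B i 1 = X := rfl

theorem cont_succ (B : ℤ → ℝ) (i : ℤ) (m : ℕ) :
    cont B i (m + 2) = X * cont B i (m + 1) - C (B (i + m + 1)) * cont B i m := rfl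

theorem a1 : T_A1 := by
  intro B i m
  induction m using Nat.twoStepInduction with
  | zero =>
    simp only [cont_succ, cont_one, cont_zero, Nat.cast_zero, add_zero, zero_add]
  | one =>
    have h1 : cont B i (1 + 2) = X * cont B i 2 - C (B (i + (1 : ℕ) + 1)) * cont B i 1 := rfl
    have h2 : cont B i 2 = X * cont B i 1 - C (B (i + (0 : ℕ) + 1)) * cont B i 0 := rfl
    have h3 : cont B (i + 1) (1 + 1) = X * cont B (i + 1) 1
      - C (B (i + 1 + (0 : ℕ) + 1)) * cont B (i + 1) 0 := rfl
    rw [h1, h2, h3]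
    simp only [cont_one, cont_zero, Nat.cast_zero, Nat.cast_one, add_zero]
    ring
  | more m ih1 ih2 =>
    have e1 : cont B i (m + 2 + 2) = X * cont B i (m + 1 + 2)
      - C (B (i + (m + 2 : ℕ) + 1)) * cont B i (m + 2) := rfl
    have e2 : cont B (i + 1) (m + 2 + 1) = X * cont B (i + 1) (m + 1 + 1)
      - C (B (i + 1 + (m + 1 : ℕ) + 1)) * cont B (i + 1) (m + 1) := rfl
    have e3 : cont B (i + 2) (m + 2) = X * cont B (i + 2) (m + 1)
      - C (B (i + 2 + (m : ℕ) + 1)) * cont B (i + 2) m := rfl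
    have c1 : i + 1 + ((m + 1 : ℕ) : ℤ) + 1 = i + ((m + 2 : ℕ) : ℤ) + 1 := by push_cast; ring
    have c2 : i + 2 + (m : ℤ) + 1 = i + ((m + 2 : ℕ) : ℤ) + 1 := by push_cast; ring
    rw [e1, ih2, ih1, e2, e3, c1, c2]
    ring

theorem a2 : T_A2 := by
  intro B B' i i' m
  induction m using Nat.twoStepInduction with
  | zero => intro _; rfl
  | one => intro _; rfl
  | more m ih1 ih2 =>
    intro h
    have h1 := ih1 (fun j hj => h j (by omega))
    have h2 := ih2 (fun j hj => h j (by omega))
    rw [cont_succ, cont_succ, h1, h2, h m (by omega)]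

theorem a3 : T_A3 := by
  intro B i m
  induction m using Nat.twoStepInduction with
  | zero => rfl
  | one => rfl
  | more m ih1 ih2 =>
    rw [a1]
    have c1 : 1 - i - ((m + 2 : ℕ) : ℤ) + 1 = 1 - i - ((m + 1 : ℕ) : ℤ) := by push_cast; ring
    have c2 : 1 - i - ((m + 2 : ℕ) : ℤ) + 2 = 1 - i - (m : ℤ) := by push_cast; ring
    have c3 : 1 - (1 - i - ((m + 1 : ℕ) : ℤ)) = i + m + 1 := by push_cast; ring
    rw [c1, c2, ih1, ih2, c3, cont_succ]

theorem a4 : T_A4 := by
  intro B i m
  induction m with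
  | zero =>
    have h2 : cont B i (0 + 2) = X * cont B i 1 - C (B (i + (0 : ℕ) + 1)) * cont B i 0 := rfl
    rw [h2]
    simp only [cont_one, cont_zero, zero_add, Finset.prod_range_one]
    ring
  | succ m ih =>
    have e1 : cont B i (m + 1 + 2) = X * cont B i (m + 2)
      - C (B (i + (m + 1 : ℕ) + 1)) * cont B i (m + 1) := rfl
    have e2 : cont B (i + 1) (m + 1 + 1) = X * cont B (i + 1) (m + 1)
      - C (B (i + 1 + (m : ℕ) + 1)) * cont B (i + 1) m := rfl
    have c1 : i + 1 + (m : ℤ) + 1 = i + ((m + 1 : ℕ) : ℤ) + 1 := by push_cast; ring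
    have e3 : cont B i (m + 1 + 1) = cont B i (m + 2) := rfl
    rw [Finset.prod_range_succ, C_mul, e1, e3, e2, c1]
    linear_combination C (B (i + ((m + 1 : ℕ) : ℤ) + 1)) * ih

theorem a5 : T_A5 := by
  intro B i m
  induction m using Nat.twoStepInduction with
  | zero => exact ⟨monic_one, natDegree_one⟩
  | one => exact ⟨monic_X, natDegree_X⟩
  | more m ih1 ih2 =>
    have hX : (X * cont B i (m + 1)).Monic := monic_X.mul ih2.1
    have hXd : (X * cont B i (m + 1)).natDegree = m + 2 := by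
      rw [monic_X.natDegree_mul ih2.1, natDegree_X, ih2.2]
      ring
    have hd : (C (B (i + m + 1)) * cont B i m).natDegree < (X * cont B i (m + 1)).natDegree := by
      rw [hXd]
      refine lt_of_le_of_lt (natDegree_C_mul_le _ _) ?_
      rw [ih1.2]
      omega
    have hdeg : (C (B (i + m + 1)) * cont B i m).degree < (X * cont B i (m + 1)).degree :=
      degree_lt_degree hd
    rw [cont_succ]
    exact ⟨hX.sub_of_left hdeg, by rw [natDegree_sub_eq_left_of_natDegree_lt hd, hXd]⟩

end Pool.Agent.H11.AM
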