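import Pool.Agent.H11.AM.A1

/-!
# Modules A6, A7 of the board for MP_29bb0a_mp (critical almost Mathieu operator)
helper11
-/

open Polynomial
open scoped ComplexConjugate

noncomputable section

namespace Pool.Agent.H11.AM

open Pool.Agent.H98.AM

theorem ex_add (a b : ℝ) : ex (a + b) = ex a * ex b := by
  unfold ex
  rw [← Complex.exp_add]
  congr 1
  push_cast
  ring

theorem ex_zero : ex 0 = 1 := by
  unfold ex
  simp

theorem ex_neg_mul (a : ℝ) : ex (-a) * ex a = 1 := by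
  rw [← ex_add]
  simp [ex_zero]

theorem ex_int (n : ℤ) : ex (n : ℝ) = 1 := by
  unfold ex
  rw [Complex.exp_eq_one_iff]
  exact ⟨n, by push_cast; ring⟩

theorem ex_add_int (a : ℝ) (n : ℤ) : ex (a + n) = ex a := by
  rw [ex_add, ex_int, mul_one]

theorem ex_nat_mul (n : ℕ) (a : ℝ) : ex (n * a) = ex a ^ n := by
  induction n with
  | zero => simp [ex_zero]
  | succ n ih =>
    have : ((n + 1 : ℕ) : ℝ) * a = n * a + a := by push_cast; ring
    rw [this, ex_add, ih, pow_succ]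

theorem norm_ex (a : ℝ) : ‖ex a‖ = 1 := by
  unfold ex
  have : (2 * (Real.pi : ℂ) * a * Complex.I) = ((2 * Real.pi * a : ℝ) : ℂ) * Complex.I := by
    push_cast; ring
  rw [this]
  exact Complex.norm_exp_ofReal_mul_I _

theorem conj_ex (a : ℝ) : conj (ex a) = ex (-a) := by
  unfold ex
  rw [← Complex.exp_conj]
  congr 1
  have h2 : (starRingEnd ℂ) (2 : ℂ) = 2 := Complex.conj_ofNat 2
  simp [h2]

theorem bsq_eq (β θ : ℝ) (n : ℤ) :
    ((bsq β θ n : ℝ) : ℂ) = 2 - ex (n * β + θ) - ex (-(n * β + θ)) := by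
  unfold bsq bnd
  rw [← Complex.mul_conj]
  rw [map_sub, map_one, conj_ex]
  have h := ex_neg_mul (n * β + θ)
  linear_combination h

/-! ## trigonometric polynomials -/

theorem trigDeg_mono {N M : ℕ} (hNM : N ≤ M) {h : ℝ → ℂ} (hh : TrigDeg N h) : TrigDeg M h := by
  obtain ⟨c, hc⟩ := hh
  refine ⟨fun k => if k ∈ Finset.Icc (-(N : ℤ)) N then c k else 0, fun θ => ?_⟩
  rw [hc]
  have hsub : Finset.Icc (-(N : ℤ)) N ⊆ Finset.Icc (-(M : ℤ)) M := by
    apply Finset.Icc_subset_Icc <;> omega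
  rw [← Finset.sum_subset hsub]
  · refine Finset.sum_congr rfl fun k hk => ?_
    dsimp only
    rw [if_pos hk]
  · intro k _ hk
    dsimp only
    rw [if_neg hk, zero_mul]

theorem trigDeg_sub {N : ℕ} {f g : ℝ → ℂ} (hf : TrigDeg N f) (hg : TrigDeg N g) :
    TrigDeg N (fun θ => f θ - g θ) := by
  obtain ⟨c, hc⟩ := hf
  obtain ⟨d, hd⟩ := hg
  refine ⟨fun k => c k - d k, fun θ => ?_⟩
  simp only [hc θ, hd θ]
  rw [← Finset.sum_sub_distrib]
  exact Finset.sum_congr rfl fun k _ => by ring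

theorem trigDeg_add {N : ℕ} {f g : ℝ → ℂ} (hf : TrigDeg N f) (hg : TrigDeg N g) :
    TrigDeg N (fun θ => f θ + g θ) := by
  obtain ⟨c, hc⟩ := hf
  obtain ⟨d, hd⟩ := hg
  refine ⟨fun k => c k + d k, fun θ => ?_⟩
  simp only [hc θ, hd θ]
  rw [← Finset.sum_add_distrib]
  exact Finset.sum_congr rfl fun k _ => by ring

theorem trigDeg_const_mul {N : ℕ} (z : ℂ) {f : ℝ → ℂ} (hf : TrigDeg N f) :
    TrigDeg N (fun θ => z * f θ) := by
  obtain ⟨c, hc⟩ := hf
  refine ⟨fun k => z * c k, fun θ => ?_⟩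
  simp only [hc θ]
  rw [Finset.mul_sum]
  exact Finset.sum_congr rfl fun k _ => by ring

theorem trigDeg_const (N : ℕ) (z : ℂ) : TrigDeg N (fun _ => z) := by
  refine ⟨fun k => if k = 0 then z else 0, fun θ => ?_⟩
  rw [Finset.sum_eq_single 0]
  · simp [ex_zero]
  · intro k _ hk
    simp [hk]
  · intro h
    exact absurd (Finset.mem_Icc.mpr ⟨by omega, by omega⟩) h

/-- multiplication by `ex (a + θ)` -/
theorem trigDeg_ex_mul {N : ℕ} (a : ℝ) {f : ℝ → ℂ} (hf : TrigDeg N f) :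
    TrigDeg (N + 1) (fun θ => ex (a + θ) * f θ) := by
  obtain ⟨c, hc⟩ := hf
  refine ⟨fun k => if k - 1 ∈ Finset.Icc (-(N : ℤ)) N then ex a * c (k - 1) else 0, fun θ => ?_⟩
  simp only [hc θ]
  rw [Finset.mul_sum]
  have hinj : Set.InjOn (fun k : ℤ => k + 1) (Finset.Icc (-(N : ℤ)) N : Finset ℤ) := by
    intro x _ y _ h
    simpa using h
  have hsub : (Finset.Icc (-(N : ℤ)) N).image (fun k : ℤ => k + 1)
      ⊆ Finset.Icc (-((N + 1 : ℕ) : ℤ)) ((N + 1 : ℕ) : ℤ) := by
    intro x hx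
    rw [Finset.mem_image] at hx
    obtain ⟨k, hk, rfl⟩ := hx
    rw [Finset.mem_Icc] at hk ⊢
    push_cast
    constructor <;> omega
  rw [← Finset.sum_subset hsub, Finset.sum_image hinj]
  · refine Finset.sum_congr rfl fun k hk => ?_
    have e1 : k + 1 - 1 = k := by ring
    rw [e1, if_pos hk]
    have e2 : ((k + 1 : ℤ) : ℝ) * θ = k * θ + θ := by push_cast; ring
    rw [e2, ex_add, ex_add]
    ring
  · intro k _ hk
    rw [if_neg, zero_mul]
    intro h
    apply hk
    rw [Finset.mem_image]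
    exact ⟨k - 1, h, by ring⟩

/-- multiplication by `ex (-(a + θ))` -/
theorem trigDeg_exn_mul {N : ℕ} (a : ℝ) {f : ℝ → ℂ} (hf : TrigDeg N f) :
    TrigDeg (N + 1) (fun θ => ex (-(a + θ)) * f θ) := by
  obtain ⟨c, hc⟩ := hf
  refine ⟨fun k => if k + 1 ∈ Finset.Icc (-(N : ℤ)) N then ex (-a) * c (k + 1) else 0,
    fun θ => ?_⟩
  simp only [hc θ]
  rw [Finset.mul_sum]
  have hinj : Set.InjOn (fun k : ℤ => k - 1) (Finset.Icc (-(N : ℤ)) N : Finset ℤ) := by
    intro x _ y _ h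
    simpa using h
  have hsub : (Finset.Icc (-(N : ℤ)) N).image (fun k : ℤ => k - 1)
      ⊆ Finset.Icc (-((N + 1 : ℕ) : ℤ)) ((N + 1 : ℕ) : ℤ) := by
    intro x hx
    rw [Finset.mem_image] at hx
    obtain ⟨k, hk, rfl⟩ := hx
    rw [Finset.mem_Icc] at hk ⊢
    push_cast
    constructor <;> omega
  rw [← Finset.sum_subset hsub, Finset.sum_image hinj]
  · refine Finset.sum_congr rfl fun k hk => ?_
    have e1 : k - 1 + 1 = k := by ring
    rw [e1, if_pos hk]
    have e2 : ex (k * θ) = ex ((k - 1 : ℤ) * θ) * ex θ := by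
      rw [← ex_add]
      congr 1
      push_cast
      ring
    have e3 : ex (-(a + θ)) = ex (-a) * ex (-θ) := by
      rw [← ex_add]
      congr 1
      ring
    have h4 := ex_neg_mul θ
    rw [e2, e3]
    linear_combination (ex (-a) * c k * ex ((k - 1 : ℤ) * θ)) * h4
  · intro k _ hk
    rw [if_neg, zero_mul]
    intro h
    apply hk
    rw [Finset.mem_image]
    exact ⟨k + 1, h, by ring⟩

theorem trigDeg_bsq_mul {N : ℕ} (β : ℝ) (n : ℤ) {f : ℝ → ℂ} (hf : TrigDeg N f) :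
    TrigDeg (N + 1) (fun θ => ((bsq β θ n : ℝ) : ℂ) * f θ) := by
  have h1 := trigDeg_const_mul 2 (trigDeg_mono (Nat.le_succ N) hf)
  have h2 := trigDeg_ex_mul (n * β) hf
  have h3 := trigDeg_exn_mul (n * β) hf
  have h4 := trigDeg_sub (trigDeg_sub h1 h2) h3
  refine (funext fun θ => ?_ : (fun θ => ((bsq β θ n : ℝ) : ℂ) * f θ) = _) ▸ h4
  rw [bsq_eq]
  ring

theorem aeval_cont_succ (B : ℤ → ℝ) (i : ℤ) (m : ℕ) (z : ℂ) :
    aeval z (cont B i (m + 2))
      = z * aeval z (cont B i (m + 1)) - ((B (i + m + 1) : ℝ) : ℂ) * aeval z (cont B i m) := by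
  rw [cont_succ]
  simp

theorem a6 : T_A6 := by
  intro β z i m
  induction m using Nat.twoStepInduction with
  | zero =>
    have : (fun θ => aeval z (cont (bsq β θ) i 0)) = fun _ => (1 : ℂ) := by
      funext θ
      simp [cont_zero]
    rw [this]
    exact trigDeg_const _ _
  | one =>
    have : (fun θ => aeval z (cont (bsq β θ) i 1)) = fun _ => z := by
      funext θ
      simp [cont_one]
    rw [this]
    exact trigDeg_const _ _
  | more m ih1 ih2 =>
    have hm : (m + 2) / 2 = m / 2 + 1 := by omega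
    have h1 := trigDeg_const_mul z (trigDeg_mono (show (m + 1) / 2 ≤ (m + 2) / 2 by omega) ih2)
    have h2 := trigDeg_bsq_mul β (i + m + 1) ih1
    rw [← hm] at h2
    have h3 := trigDeg_sub h1 h2
    refine (funext fun θ => ?_ : (fun θ => aeval z (cont (bsq β θ) i (m + 2))) = _) ▸ h3
    rw [aeval_cont_succ]

/-! ## the two products -/

theorem ex_prim (p : ℤ) (s : ℕ) (hp : IsCoprime p (s : ℤ)) (hs : 1 ≤ s) :
    IsPrimitiveRoot (ex (p / s)) s := by
  have h0 : IsPrimitiveRoot (ex (1 / s)) s := by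
    have := Complex.isPrimitiveRoot_exp s (by omega)
    have e : ex (1 / s) = Complex.exp (2 * Real.pi * Complex.I / s) := by
      unfold ex
      congr 1
      push_cast
      ring
    rw [e]
    exact this
  have h1 := h0.zpow_of_gcd_eq_one p (by
    rw [← Int.isCoprime_iff_gcd_eq_one]; exact hp)
  have e : ex (p / s) = ex (1 / s) ^ p := by
    unfold ex
    rw [← Complex.exp_int_mul]
    congr 1
    push_cast
    ring
  rw [e]
  exact h1

theorem prod_bnd (p : ℤ) (s : ℕ) (hp : IsCoprime p (s : ℤ)) (hs : 1 ≤ s) (θ : ℝ) :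
    ∏ j ∈ Finset.range s, bnd (p / s) θ (j : ℤ) = 1 - ex (s * θ) := by
  have h := X_pow_sub_C_eq_prod (ex_prim p s hp hs) (α := ex θ) (a := ex θ ^ s) (by omega) rfl
  have h1 := congrArg (eval 1) h
  rw [eval_prod] at h1
  simp only [eval_sub, eval_pow, eval_X, eval_C, one_pow] at h1
  rw [ex_nat_mul, h1]
  refine Finset.prod_congr rfl fun j _ => ?_
  unfold bnd
  rw [ex_add]
  congr 2
  have := ex_nat_mul j (p / s)
  rw [← this]
  push_cast
  rfl

theorem a7 : T_A7 := by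
  intro p s hp hs
  refine ⟨?_, fun θ => prod_bnd p s hp hs θ⟩
  obtain ⟨m, rfl⟩ : ∃ m, s = m + 1 := ⟨s - 1, by omega⟩
  have h := (ex_prim p (m + 1) hp hs).prod_one_sub_pow_eq_order
  have h1 := congrArg Complex.normSq h
  rw [map_prod] at h1
  have h2 : Complex.normSq ((m : ℂ) + 1) = ((m + 1 : ℕ) : ℝ) ^ 2 := by
    have : ((m : ℂ) + 1) = (((m + 1 : ℕ) : ℝ) : ℂ) := by push_cast; ring
    rw [this, Complex.normSq_ofReal]
    ring
  rw [h2] at h1
  rw [← h1]
  have : m + 1 - 1 = m := by omega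
  rw [this]
  refine Finset.prod_congr rfl fun j _ => ?_
  unfold bsq bnd
  congr 2
  have := ex_nat_mul (j + 1) (p / ((m + 1 : ℕ) : ℝ))
  rw [← this]
  congr 1
  push_cast
  ring

end Pool.Agent.H11.AM
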