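import Pool.Agent.H11.AM.A6

/-!
# Module A8 of the board for MP_29bb0a_mp: Chambers' formula
helper11
-/

open Polynomial
open scoped ComplexConjugate

noncomputable section

namespace Pool.Agent.H11.AM

open Pool.Agent.H98.AM

/-- the left side of Chambers' formula -/
def G (p : ℤ) (s : ℕ) (θ : ℝ) : ℝ[X] :=
  cont (bsq (p / s) θ) 0 s - C (bsq (p / s) θ 0) * cont (bsq (p / s) θ) 1 (s - 2)

theorem bnd_shift (β θ : ℝ) (n : ℤ) : bnd β (θ + β) n = bnd β θ (n + 1) := by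
  unfold bnd
  congr 2
  push_cast
  ring

theorem bsq_shift (β θ : ℝ) (n : ℤ) : bsq β (θ + β) n = bsq β θ (n + 1) := by
  unfold bsq
  rw [bnd_shift]

theorem bnd_per (p : ℤ) (s : ℕ) (hs : 1 ≤ s) (θ : ℝ) (n : ℤ) :
    bnd (p / s) θ (n + s) = bnd (p / s) θ n := by
  unfold bnd
  congr 1
  have hs' : (s : ℝ) ≠ 0 := by positivity
  have : (((n + s : ℤ) : ℝ) * (p / s) + θ) = (n * (p / s) + θ) + (p : ℤ) := by
    push_cast
    field_simp
    ring
  rw [this, ex_add_int]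

theorem bsq_per (p : ℤ) (s : ℕ) (hs : 1 ≤ s) (θ : ℝ) (n : ℤ) :
    bsq (p / s) θ (n + s) = bsq (p / s) θ n := by
  unfold bsq
  rw [bnd_per p s hs]

theorem G_shift (p : ℤ) (s : ℕ) (hs : 3 ≤ s) (θ : ℝ) :
    G p s (θ + p / s) = G p s θ := by
  obtain ⟨m, rfl⟩ : ∃ m, s = m + 2 := ⟨s - 2, by omega⟩
  have hm : m + 2 - 2 = m := by omega
  unfold G
  rw [hm]
  set β : ℝ := (p : ℝ) / ((m + 2 : ℕ) : ℝ) with hβ
  have e1 : cont (bsq β (θ + β)) 0 (m + 2) = cont (bsq β θ) 1 (m + 2) := by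
    apply a2
    intro j _
    rw [bsq_shift]
    congr 1
    ring
  have e2 : cont (bsq β (θ + β)) 1 m = cont (bsq β θ) 2 m := by
    apply a2
    intro j _
    rw [bsq_shift]
    congr 1
    ring
  have e3 : bsq β (θ + β) 0 = bsq β θ 1 := by
    rw [bsq_shift]
    congr 1
  have e4 : bsq β θ (1 + m + 1) = bsq β θ 0 := by
    have := bsq_per p (m + 2) (by omega) θ 0
    rw [← hβ] at this
    rw [← this]
    congr 1
    push_cast
    ring
  rw [e1, e2, e3, cont_succ, a1, e4]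
  have e5 : (0 : ℤ) + 1 = 1 := by norm_num
  have e6 : (0 : ℤ) + 2 = 2 := by norm_num
  rw [e5, e6]
  ring

theorem G_shift_nat (p : ℤ) (s : ℕ) (hs : 3 ≤ s) (θ : ℝ) (k : ℕ) :
    G p s (θ + k * (p / s)) = G p s θ := by
  induction k with
  | zero => simp
  | succ k ih =>
    have : θ + ((k + 1 : ℕ) : ℝ) * (p / s) = (θ + k * (p / s)) + p / s := by
      push_cast; ring
    rw [this, G_shift p s hs, ih]

theorem ex_int_mul_pow (p : ℤ) (s : ℕ) (hs : 1 ≤ s) (j : ℤ) : ex (j * (p / s)) ^ s = 1 := by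
  rw [← ex_nat_mul]
  have hs' : (s : ℝ) ≠ 0 := by positivity
  have : (s : ℝ) * (j * (p / s)) = ((j * p : ℤ) : ℝ) := by
    push_cast
    field_simp
  rw [this, ex_int]

theorem ex_eq_one_iff (a : ℝ) : ex a = 1 ↔ ∃ n : ℤ, a = n := by
  unfold ex
  rw [Complex.exp_eq_one_iff]
  constructor
  · rintro ⟨n, hn⟩
    refine ⟨n, ?_⟩
    have h2 : (2 * (Real.pi : ℂ) * Complex.I) ≠ 0 := by
      simp [Real.pi_ne_zero]
    have h3 : (a : ℂ) = n := by
      apply mul_right_cancel₀ h2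
      rw [← hn]
      ring
    exact_mod_cast h3
  · rintro ⟨n, rfl⟩
    exact ⟨n, by push_cast; ring⟩

theorem ex_int_mul_ne (p : ℤ) (s : ℕ) (hp : IsCoprime p (s : ℤ)) (hs : 1 ≤ s) (j : ℤ)
    (hj : j ≠ 0) (hj' : |j| < s) : ex (j * (p / s)) ≠ 1 := by
  intro h
  rw [ex_eq_one_iff] at h
  obtain ⟨n, hn⟩ := h
  have hs' : (s : ℝ) ≠ 0 := by positivity
  have h1 : ((j * p : ℤ) : ℝ) = ((n * s : ℤ) : ℝ) := by
    push_cast
    field_simp at hn
    linarith
  have h2 : j * p = n * s := by exact_mod_cast h1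
  have h3 : (s : ℤ) ∣ j * p := ⟨n, by rw [h2]; ring⟩
  have h4 : (s : ℤ) ∣ j := hp.symm.dvd_of_dvd_mul_right h3
  exact hj (Int.eq_zero_of_abs_lt_dvd h4 hj')

theorem trig_const (p : ℤ) (s : ℕ) (hp : IsCoprime p (s : ℤ)) (hs : 1 ≤ s) (N : ℕ) (hN : N < s)
    (h : ℝ → ℂ) (hh : TrigDeg N h) (hper : ∀ θ (k : ℕ), h (θ + k * (p / s)) = h θ) :
    ∀ θ, h θ = h 0 := by
  obtain ⟨c, hc⟩ := hh
  have key : ∀ θ, (s : ℂ) * h θ = s * c 0 := by
    intro θ
    have h1 : (s : ℂ) * h θ = ∑ k ∈ Finset.range s, h (θ + k * (p / s)) := by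
      rw [Finset.sum_congr rfl (fun k _ => hper θ k)]
      simp
    rw [h1]
    have h2 : ∀ k ∈ Finset.range s, h (θ + k * (p / s))
        = ∑ j ∈ Finset.Icc (-(N : ℤ)) N, c j * ex (j * θ) * ex (j * (p / s)) ^ k := by
      intro k _
      rw [hc]
      refine Finset.sum_congr rfl fun j _ => ?_
      rw [mul_assoc, ← ex_nat_mul, ← ex_add]
      congr 2
      ring
    rw [Finset.sum_congr rfl h2, Finset.sum_comm]
    rw [Finset.sum_eq_single 0]
    · simp [ex_zero]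
    · intro j hj hj0
      rw [← Finset.mul_sum]
      have h3 : ex (j * (p / s)) ≠ 1 := by
        apply ex_int_mul_ne p s hp hs j hj0
        rw [Finset.mem_Icc] at hj
        rw [abs_lt]
        constructor <;> omega
      rw [geom_sum_eq h3, ex_int_mul_pow p s hs]
      simp
    · intro hn
      exact absurd (Finset.mem_Icc.mpr ⟨by omega, by omega⟩) hn
  have hs' : (s : ℂ) ≠ 0 := by
    have : s ≠ 0 := by omega
    exact_mod_cast this
  intro θ
  have e1 := mul_left_cancel₀ hs' (key θ)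
  have e2 := mul_left_cancel₀ hs' (key 0)
  rw [e1, e2]

theorem aeval_ofReal' (P : ℝ[X]) (x : ℝ) : aeval (x : ℂ) P = ((P.eval x : ℝ) : ℂ) := by
  have h := Polynomial.aeval_algebraMap_apply ℂ x P
  have e1 : (algebraMap ℝ ℂ) x = (x : ℂ) := rfl
  rw [e1] at h
  rw [h]
  have e2 : aeval x P = P.eval x := by rw [Polynomial.coe_aeval_eq_eval]
  rw [e2]
  rfl

theorem a8 : T_A8 := by
  intro p s hp hs θ
  apply Polynomial.funext
  intro x
  have hT : TrigDeg (s / 2) (fun θ => aeval (x : ℂ) (G p s θ)) := by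
    have h1 := a6 (p / s) (x : ℂ) 0 s
    have h2 := trigDeg_bsq_mul (p / s) 0 (a6 (p / s) (x : ℂ) 1 (s - 2))
    have h3 : (s - 2) / 2 + 1 = s / 2 := by omega
    rw [h3] at h2
    refine (funext fun θ => ?_ : (fun θ => aeval (x : ℂ) (G p s θ)) = _) ▸ trigDeg_sub h1 h2
    unfold G
    simp
  have hper : ∀ θ (k : ℕ), (fun θ => aeval (x : ℂ) (G p s θ)) (θ + k * (p / s))
      = (fun θ => aeval (x : ℂ) (G p s θ)) θ := by
    intro θ k
    dsimp only
    rw [G_shift_nat p s hs]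
  have h := trig_const p s hp (by omega) (s / 2) (by omega) _ hT hper θ
  rw [aeval_ofReal', aeval_ofReal'] at h
  have h' : (G p s θ).eval x = (G p s 0).eval x := by exact_mod_cast h
  have h0 : G p s 0 = Dl p s := by
    unfold G Dl
    have : bsq (p / s) 0 0 = 0 := by
      unfold bsq bnd
      simp [ex_zero]
    rw [this]
    simp
  rw [← h0, ← h']
  rfl

end Pool.Agent.H11.AM
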