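import Pool.Agent.H11.AM.A6

/-!
# Modules H1-H3 of the board for MP_29bb0a_mp: cut-offs, the commutator identity, weak bonds
helper11
-/

open Polynomial
open scoped ComplexConjugate

noncomputable section

namespace Pool.Agent.H11.AM

open Pool.Agent.H98.AM

/-! ## integer division -/

theorem int_div_eq (s q r : ℤ) (h0 : 0 ≤ r) (h1 : r < s) : (s * q + r) / s = q := by
  have hs : s ≠ 0 := by omega
  rw [add_comm, Int.add_mul_ediv_left _ _ hs, Int.ediv_eq_zero_of_lt h0 h1, zero_add]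

theorem div_sub_one (s k : ℤ) (hs : 0 < s) :
    ((k - 1) / s = k / s ∧ ¬ s ∣ k) ∨ ((k - 1) / s = k / s - 1 ∧ s ∣ k) := by
  have h1 := Int.mul_ediv_add_emod k s
  have h2 := Int.emod_nonneg k hs.ne'
  have h3 := Int.emod_lt_of_pos k hs
  by_cases h : k % s = 0
  · right
    refine ⟨?_, Int.dvd_of_emod_eq_zero h⟩
    have e : k - 1 = s * (k / s - 1) + (s - 1) := by
      rw [h] at h1
      linarith
    have := int_div_eq s (k / s - 1) (s - 1) (by omega) (by omega)
    rw [← e] at this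
    exact this
  · left
    refine ⟨?_, fun hd => h (Int.emod_eq_zero_of_dvd hd)⟩
    have e : k - 1 = s * (k / s) + (k % s - 1) := by
      linarith
    have := int_div_eq s (k / s) (k % s - 1) (by omega) (by omega)
    rw [← e] at this
    exact this

theorem cdist_sub_one (s : ℕ) (hs : 1 ≤ s) (k : ℤ) :
    |cdist s k - cdist s (k - 1)| ≤ 1 ∧ (¬ (s : ℤ) ∣ k → cdist s (k - 1) = cdist s k) := by
  unfold cdist
  rcases div_sub_one (s : ℤ) k (by omega) with ⟨h, h'⟩ | ⟨h, h'⟩
  · rw [h]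
    exact ⟨by simp, fun _ => rfl⟩
  · rw [h]
    refine ⟨?_, fun hn => absurd h' hn⟩
    rw [abs_le]
    constructor <;> omega

theorem cdist_lt_iff (s : ℕ) (hs : 1 ≤ s) (k m : ℤ) :
    cdist s k < m ↔ -(m * s) ≤ k ∧ k < m * s := by
  unfold cdist
  have hs' : (0 : ℤ) < s := by omega
  rw [max_lt_iff, Int.ediv_lt_iff_lt_mul hs']
  have : -1 - k / (s : ℤ) < m ↔ -m ≤ k / (s : ℤ) := by constructor <;> intro h <;> omega
  rw [this, Int.le_ediv_iff_mul_le hs', neg_mul]
  exact and_comm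

theorem chi_ne_zero (s L j : ℕ) (k : ℤ) (hL : 1 ≤ L) (h : chi s L j k ≠ 0) :
    cdist s k < ((j : ℤ) + 2) * L := by
  by_contra hc
  push Not at hc
  apply h
  unfold chi
  apply max_eq_left
  refine le_trans (min_le_right _ _) ?_
  have hL' : (0 : ℝ) < L := by
    have : 0 < L := by omega
    exact_mod_cast this
  rw [sub_nonpos, le_div_iff₀ hL']
  exact_mod_cast hc

theorem chi_eq_one (s L j : ℕ) (k : ℤ) (hL : 1 ≤ L) (h : cdist s k ≤ ((j : ℤ) + 1) * L) :
    chi s L j k = 1 := by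
  unfold chi
  have hL' : (0 : ℝ) < L := by
    have : 0 < L := by omega
    exact_mod_cast this
  have : (1 : ℝ) ≤ (j : ℝ) + 2 - (cdist s k : ℝ) / L := by
    have h1 : (cdist s k : ℝ) / L ≤ j + 1 := by
      rw [div_le_iff₀ hL']
      exact_mod_cast h
    linarith
  rw [min_eq_left this]
  exact max_eq_right zero_le_one

theorem clamp_lip (x y : ℝ) : |max 0 (min 1 x) - max 0 (min 1 y)| ≤ |x - y| := by
  have h1 : |max 0 (min 1 x) - max 0 (min 1 y)| ≤ |min 1 x - min 1 y| := by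
    have := abs_max_sub_max_le_abs (min 1 x) (min 1 y) 0
    simpa [max_comm] using this
  have h2 : |min 1 x - min 1 y| ≤ |x - y| := by
    have := abs_min_sub_min_le_max 1 x 1 y
    simpa using this
  exact h1.trans h2

theorem h1 : T_H1 := by
  intro s L j k hs hL
  have hL' : (0 : ℝ) < L := by
    have : 0 < L := by omega
    exact_mod_cast this
  obtain ⟨hd1, hd2⟩ := cdist_sub_one s hs k
  obtain ⟨hd3, _⟩ := cdist_sub_one s hs (k + 1)
  have hk1 : k + 1 - 1 = k := by ring
  rw [hk1] at hd3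
  refine ⟨⟨le_max_left _ _, max_le zero_le_one (min_le_left _ _)⟩, ?_, ?_, ?_, ?_, ?_⟩
  · intro h
    have h' := chi_ne_zero s L j k hL h
    have e : (((j + 1 : ℕ) : ℤ) + 1) * L = ((j : ℤ) + 2) * L := by push_cast; ring
    rw [abs_le] at hd1 hd3
    refine ⟨chi_eq_one _ _ _ _ hL ?_, chi_eq_one _ _ _ _ hL ?_, chi_eq_one _ _ _ _ hL ?_⟩ <;>
    rw [e] <;> omega
  · intro h
    unfold chi
    rw [hd2 h]
  · unfold chi
    refine (clamp_lip _ _).trans ?_
    have e : (j : ℝ) + 2 - (cdist s k : ℝ) / L - ((j : ℝ) + 2 - (cdist s (k - 1) : ℝ) / L)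
        = -((cdist s k - cdist s (k - 1) : ℤ) : ℝ) / L := by
      push_cast
      ring
    rw [e, abs_div, abs_neg, abs_of_pos hL']
    apply div_le_div_of_nonneg_right _ hL'.le
    exact_mod_cast hd1
  · intro h
    have h' := chi_ne_zero s L j k hL h
    exact (cdist_lt_iff s hs k _).mp h'
  · intro h3 h4
    apply chi_eq_one _ _ _ _ hL
    have := (cdist_lt_iff s hs k (((j : ℤ) + 1) * L + 1)).mpr ⟨h3, h4⟩
    omega

end Pool.Agent.H11.AM
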