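import Pool.Agent.H11.AM.H1

/-!
# Module H2 of the board for MP_29bb0a_mp: the commutator identity
helper11
-/

open Polynomial
open scoped ComplexConjugate

noncomputable section

namespace Pool.Agent.H11.AM

open Pool.Agent.H98.AM

variable {N : ℕ} [NeZero N]

theorem bop_apply (a : ZMod N → ℂ) (f : Rg N) (n : ZMod N) :
    (bop a f) n = a n * f (n - 1) + conj (a (n + 1)) * f (n + 1) := rfl

theorem mop_apply (g : ZMod N → ℂ) (f : Rg N) (n : ZMod N) : (mop g f) n = g n * f n := rfl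

theorem cut_apply (s L j : ℕ) (ψ : ℤ → ℂ) (n : ZMod N) :
    (cut s L j ψ : Rg N) n = (chi s L j n.valMinAbs : ℂ) * ψ n.valMinAbs := rfl

theorem Xop_apply (s L j : ℕ) (f : Rg N) (n : ZMod N) :
    (Xop s L j f : Rg N) n = (chi s L j n.valMinAbs : ℂ) * f n := rfl

theorem Kop_apply (β θ : ℝ) (s L j : ℕ) (f : Rg N) :
    (Kop β θ s L j f : Rg N) = Tr β θ N (Xop s L j f) - Xop s L j (Tr β θ N f) := rfl

theorem vma_sub_one (n : ZMod N) (h : -(N : ℤ) < (n.valMinAbs - 1) * 2) :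
    (n - 1).valMinAbs = n.valMinAbs - 1 := by
  rw [ZMod.valMinAbs_spec]
  have := n.valMinAbs_mem_Ioc
  rw [Set.mem_Ioc] at this ⊢
  refine ⟨?_, h, by omega⟩
  rw [Int.cast_sub, ZMod.coe_valMinAbs, Int.cast_one]

theorem vma_add_one (n : ZMod N) (h : (n.valMinAbs + 1) * 2 ≤ (N : ℤ)) :
    (n + 1).valMinAbs = n.valMinAbs + 1 := by
  rw [ZMod.valMinAbs_spec]
  have := n.valMinAbs_mem_Ioc
  rw [Set.mem_Ioc] at this ⊢
  refine ⟨?_, by omega, h⟩
  rw [Int.cast_add, ZMod.coe_valMinAbs, Int.cast_one]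

theorem Xop_cut (s L j : ℕ) (ψ : ℤ → ℂ) (hs : 1 ≤ s) (hL : 1 ≤ L) :
    Xop s L j (cut s L (j + 1) ψ : Rg N) = cut s L j ψ := by
  ext n
  rw [Xop_apply, cut_apply, cut_apply]
  obtain ⟨_, h2, _⟩ := h1 s L j n.valMinAbs hs hL
  by_cases h : chi s L j n.valMinAbs = 0
  · rw [h]
    simp
  · rw [(h2 h).1]
    simp

theorem big_N (s L j M : ℕ) (hM : 2 * (j + 4) * L ≤ M) :
    2 * (((j : ℤ) + 2) * L * s) + 4 * (L * s : ℤ) ≤ ((M * s : ℕ) : ℤ) := by
  have h : 2 * (j + 4) * L * s ≤ M * s := Nat.mul_le_mul_right s hM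
  have h' : ((2 * (j + 4) * L * s : ℕ) : ℤ) ≤ ((M * s : ℕ) : ℤ) := by exact_mod_cast h
  refine le_trans (le_of_eq ?_) h'
  push_cast
  ring

theorem h2 : T_H2 := by
  intro p s L j M _ _ β θ φ E E0 ψ g hs hL hM hψ
  have hN := big_N s L j M hM
  have hLs : (1 : ℤ) ≤ L * s := by
    have h1 : (1 : ℤ) ≤ L := by exact_mod_cast hL
    have h2 : (1 : ℤ) ≤ s := by omega
    nlinarith
  ext n
  have e1 : (Tr (p / s) θ (M * s) (cut s L j ψ) - (E : ℂ) • cut s L j ψ : Rg (M * s)) n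
      = (Tr (p / s) θ (M * s) (cut s L j ψ) : Rg (M * s)) n
        - (E : ℂ) * (cut s L j ψ : Rg (M * s)) n := rfl
  have e2 : (Kop (p / s) θ s L j (cut s L (j + 1) ψ) + Vop (p / s) θ β φ s L j (cut s L (j + 1) ψ)
      + cut s L j (fun n => ((E0 : ℂ) - E) * ψ n + g n) : Rg (M * s)) n
      = (Tr (p / s) θ (M * s) (Xop s L j (cut s L (j + 1) ψ)) : Rg (M * s)) n
        - (Xop s L j (Tr (p / s) θ (M * s) (cut s L (j + 1) ψ)) : Rg (M * s)) n
        + (Vop (p / s) θ β φ s L j (cut s L (j + 1) ψ) : Rg (M * s)) n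
        + (cut s L j (fun n => ((E0 : ℂ) - E) * ψ n + g n) : Rg (M * s)) n := rfl
  rw [e1, e2, Xop_cut s L j ψ (by omega) hL]
  have e3 : (Vop (p / s) θ β φ s L j (cut s L (j + 1) ψ) : Rg (M * s)) n
      = (chi s L j n.valMinAbs : ℂ) *
        ((rb (p / s) θ (M * s) n - bnd β (θ + φ) n.valMinAbs) * (cut s L (j + 1) ψ : Rg (M * s)) (n - 1)
          + conj (rb (p / s) θ (M * s) (n + 1) - bnd β (θ + φ) (n + 1).valMinAbs)
            * (cut s L (j + 1) ψ : Rg (M * s)) (n + 1)) := rfl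
  have e4 : (Xop s L j (Tr (p / s) θ (M * s) (cut s L (j + 1) ψ)) : Rg (M * s)) n
      = (chi s L j n.valMinAbs : ℂ) *
        (rb (p / s) θ (M * s) n * (cut s L (j + 1) ψ : Rg (M * s)) (n - 1)
          + conj (rb (p / s) θ (M * s) (n + 1))
            * (cut s L (j + 1) ψ : Rg (M * s)) (n + 1)) := rfl
  rw [e3, e4, cut_apply (N := M * s) s L j ψ n, cut_apply (N := M * s) s L j _ n]
  have key : (chi s L j n.valMinAbs : ℂ) * (bnd β (θ + φ) n.valMinAbs
        * (cut s L (j + 1) ψ : Rg (M * s)) (n - 1)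
      + conj (bnd β (θ + φ) (n + 1).valMinAbs) * (cut s L (j + 1) ψ : Rg (M * s)) (n + 1))
      = (chi s L j n.valMinAbs : ℂ) * (E0 * ψ n.valMinAbs + g n.valMinAbs) := by
    obtain ⟨_, g2, _, _, g5, _⟩ := h1 s L j n.valMinAbs (by omega) hL
    by_cases hc : chi s L j n.valMinAbs = 0
    · rw [hc]
      simp
    · obtain ⟨g21, g22, g23⟩ := g2 hc
      obtain ⟨g51, g52⟩ := g5 hc
      congr 1
      have v1 : (n - 1).valMinAbs = n.valMinAbs - 1 := by
        apply vma_sub_one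
        linarith
      have v2 : (n + 1).valMinAbs = n.valMinAbs + 1 := by
        apply vma_add_one
        linarith
      rw [cut_apply, cut_apply, v1, v2, g22, g23, ← hψ n.valMinAbs]
      unfold lop
      simp
  rw [map_sub]
  linear_combination key

end Pool.Agent.H11.AM
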