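import Pool.Agent.H11.AM.H2

/-!
# Module H3 of the board for MP_29bb0a_mp: the commutators live on the weak bonds
helper11
-/

open Polynomial
open scoped ComplexConjugate

noncomputable section

namespace Pool.Agent.H11.AM

open Pool.Agent.H98.AM

theorem norm_one_sub_ex (a : ℝ) : ‖1 - ex a‖ ≤ 2 * Real.pi * |a| := by
  have h := Real.norm_exp_I_mul_ofReal_sub_one_le (x := 2 * Real.pi * a)
  have e : ex a = Complex.exp (Complex.I * ((2 * Real.pi * a : ℝ) : ℂ)) := by
    unfold ex
    congr 1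
    push_cast
    ring
  rw [norm_sub_rev, e]
  refine h.trans (le_of_eq ?_)
  rw [Real.norm_eq_abs, abs_mul, abs_of_pos (by positivity)]

/-- on the ring, `χ_j (n-1)` is `chi (k-1)` with `k` the representative of `n` -/
theorem chi_sub_one (s L j M : ℕ) [NeZero s] [NeZero M] (hs : 3 ≤ s) (hL : 1 ≤ L)
    (hM : 2 * (j + 4) * L ≤ M) (n : ZMod (M * s)) :
    chi s L j (n - 1).valMinAbs = chi s L j (n.valMinAbs - 1) := by
  have hN := big_N s L j M hM
  have hLs : (3 : ℤ) ≤ L * s := by
    have h1 : (1 : ℤ) ≤ L := by exact_mod_cast hL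
    have h2 : (3 : ℤ) ≤ s := by exact_mod_cast hs
    nlinarith
  by_cases h : -((M * s : ℕ) : ℤ) < (n.valMinAbs - 1) * 2
  · rw [vma_sub_one n h]
  · push Not at h
    have hm := n.valMinAbs_mem_Ioc
    rw [Set.mem_Ioc] at hm
    obtain ⟨hm1, hm2⟩ := hm
    have hv : (n - 1).valMinAbs = n.valMinAbs - 1 + ((M * s : ℕ) : ℤ) := by
      rw [ZMod.valMinAbs_spec]
      rw [Set.mem_Ioc]
      refine ⟨?_, by omega, by omega⟩
      rw [Int.cast_add, Int.cast_sub, ZMod.coe_valMinAbs, Int.cast_one, Int.cast_natCast,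
        ZMod.natCast_self, add_zero]
    have z1 : chi s L j (n.valMinAbs - 1) = 0 := by
      by_contra hc
      obtain ⟨_, _, _, _, g5, _⟩ := h1 s L j (n.valMinAbs - 1) (by omega) hL
      have := (g5 hc).1
      linarith
    have z2 : chi s L j (n.valMinAbs - 1 + ((M * s : ℕ) : ℤ)) = 0 := by
      by_contra hc
      obtain ⟨_, _, _, _, g5, _⟩ := h1 s L j (n.valMinAbs - 1 + ((M * s : ℕ) : ℤ)) (by omega) hL
      have := (g5 hc).2
      linarith
    rw [hv, z1, z2]

theorem dvd_vma_iff (s M : ℕ) [NeZero s] [NeZero M] (n : ZMod (M * s)) :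
    (s : ℤ) ∣ n.valMinAbs ↔ n.val % s = 0 := by
  have h : (s : ℤ) ∣ n.valMinAbs ↔ (s : ℤ) ∣ (n.val : ℤ) := by
    rw [ZMod.valMinAbs_def_pos]
    split_ifs
    · rfl
    · have : (s : ℤ) ∣ ((M * s : ℕ) : ℤ) := ⟨M, by push_cast; ring⟩
      exact dvd_sub_left this
  rw [h, Int.natCast_dvd_natCast]
  exact Nat.dvd_iff_mod_eq_zero

/-- the coefficients of the commutator -/
def cc (p : ℤ) (s L j M : ℕ) [NeZero s] [NeZero M] (θ : ℝ) (n : ZMod (M * s)) : ℂ :=
  rb (p / s) θ (M * s) n
    * ((chi s L j (n - 1).valMinAbs : ℂ) - (chi s L j n.valMinAbs : ℂ))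

theorem Kop_cc (p : ℤ) (s L j M : ℕ) [NeZero s] [NeZero M] (θ : ℝ) (f : Rg (M * s))
    (n : ZMod (M * s)) :
    (Kop (p / s) θ s L j f : Rg (M * s)) n
      = cc p s L j M θ n * f (n - 1) - conj (cc p s L j M θ (n + 1)) * f (n + 1) := by
  have e : (Kop (p / s) θ s L j f : Rg (M * s)) n
      = (rb (p / s) θ (M * s) n * ((chi s L j (n - 1).valMinAbs : ℂ) * f (n - 1))
          + conj (rb (p / s) θ (M * s) (n + 1)) * ((chi s L j (n + 1).valMinAbs : ℂ) * f (n + 1)))
        - (chi s L j n.valMinAbs : ℂ) * (rb (p / s) θ (M * s) n * f (n - 1)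
          + conj (rb (p / s) θ (M * s) (n + 1)) * f (n + 1)) := rfl
  rw [e]
  unfold cc
  rw [add_sub_cancel_right, map_mul, map_sub, Complex.conj_ofReal, Complex.conj_ofReal]
  ring

theorem cc_zero (p : ℤ) (s L j M : ℕ) [NeZero s] [NeZero M] (θ : ℝ) (hs : 3 ≤ s) (hL : 1 ≤ L)
    (hM : 2 * (j + 4) * L ≤ M) (n : ZMod (M * s)) (hn : n.val % s ≠ 0) :
    cc p s L j M θ n = 0 := by
  unfold cc
  rw [chi_sub_one s L j M hs hL hM]
  obtain ⟨_, _, g3, _⟩ := h1 s L j n.valMinAbs (by omega) hL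
  rw [g3 (fun h => hn ((dvd_vma_iff s M n).mp h)), sub_self, mul_zero]

theorem cc_le (p : ℤ) (s L j M : ℕ) [NeZero s] [NeZero M] (θ : ℝ) (hs : 3 ≤ s) (hL : 1 ≤ L)
    (hM : 2 * (j + 4) * L ≤ M) (n : ZMod (M * s)) :
    ‖cc p s L j M θ n‖ ≤ 2 * Real.pi * |θ| / L := by
  have hL' : (0 : ℝ) < L := by
    have : 0 < L := by omega
    exact_mod_cast this
  by_cases hn : n.val % s = 0
  · unfold cc
    rw [chi_sub_one s L j M hs hL hM]
    obtain ⟨_, _, _, g4, _⟩ := h1 s L j n.valMinAbs (by omega) hL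
    have e1 : ‖(chi s L j (n.valMinAbs - 1) : ℂ) - (chi s L j n.valMinAbs : ℂ)‖ ≤ 1 / L := by
      rw [← Complex.ofReal_sub, Complex.norm_real, Real.norm_eq_abs, abs_sub_comm]
      exact g4
    have e2 : ‖rb (p / s) θ (M * s) n‖ ≤ 2 * Real.pi * |θ| := by
      unfold rb bnd
      obtain ⟨q, hq⟩ := Nat.dvd_of_mod_eq_zero hn
      have hs' : (s : ℝ) ≠ 0 := by
        have : s ≠ 0 := by omega
        exact_mod_cast this
      have : (((n.val : ℤ) : ℝ) * (p / s) + θ) = θ + ((q * p : ℤ) : ℝ) := by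
        rw [hq]
        push_cast
        field_simp
        ring
      rw [this, ex_add_int]
      exact norm_one_sub_ex θ
    rw [norm_mul]
    calc _ ≤ (2 * Real.pi * |θ|) * (1 / L) := by gcongr
      _ = _ := by ring
  · rw [cc_zero p s L j M θ hs hL hM n hn, norm_zero]
    positivity

theorem val_sub_one_mod (s M : ℕ) [NeZero s] [NeZero M] (hs : 3 ≤ s) (n : ZMod (M * s))
    (hn : n.val % s = 0) : (n - 1).val % s = s - 1 := by
  have h0 : (s : ℤ) ∣ (n.val : ℤ) := by
    rw [Int.natCast_dvd_natCast]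
    exact Nat.dvd_of_mod_eq_zero hn
  have h1 : (((n - 1).val : ℤ) : ZMod (M * s)) = ((n.val - 1 : ℤ) : ZMod (M * s)) := by
    rw [Int.cast_natCast, ZMod.natCast_val, ZMod.cast_id', id, Int.cast_sub, Int.cast_natCast,
      ZMod.natCast_val, ZMod.cast_id', id, Int.cast_one]
  rw [ZMod.intCast_eq_intCast_iff_dvd_sub] at h1
  have h2 : (s : ℤ) ∣ ((M * s : ℕ) : ℤ) := ⟨M, by push_cast; ring⟩
  have h3 := h2.trans h1
  have h4 : (s : ℤ) ∣ (((n - 1).val : ℤ) + 1) := by
    have := dvd_sub h0 h3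
    have e : (n.val : ℤ) - (n.val - 1 - ((n - 1).val : ℤ)) = ((n - 1).val : ℤ) + 1 := by ring
    rwa [e] at this
  have h5 : s ∣ (n - 1).val + 1 := by exact_mod_cast h4
  obtain ⟨q, hq⟩ := h5
  have hq0 : q ≠ 0 := by
    rintro rfl
    simp at hq
  obtain ⟨r, rfl⟩ := Nat.exists_eq_succ_of_ne_zero hq0
  have h6 : (n - 1).val = (s - 1) + s * r := by
    have : s * (r + 1) = s * r + s := by ring
    rw [Nat.succ_eq_add_one] at hq
    omega
  rw [h6, Nat.add_mul_mod_self_left, Nat.mod_eq_of_lt (by omega)]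

theorem Qp_apply (s : ℕ) {N : ℕ} [NeZero N] (f : Rg N) (n : ZMod N) :
    (Qp s f : Rg N) n = (if n.val % s = 0 ∨ n.val % s = s - 1 then 1 else 0) * f n := rfl

theorem h3 : T_H3 := by
  intro p s L j M _ _ θ hs hL hM f
  have hcc := cc_zero p s L j M θ hs hL hM
  have hle := cc_le p s L j M θ hs hL hM
  have hv := val_sub_one_mod s M hs
  constructor
  · ext n
    rw [Qp_apply, Kop_cc, Kop_cc, Qp_apply, Qp_apply]
    by_cases h0 : n.val % s = 0
    · -- `n` is divisible
      have h1 : (n + 1).val % s ≠ 0 := by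
        intro h
        have := hv (n + 1) h
        rw [add_sub_cancel_right] at this
        omega
      rw [hcc (n + 1) h1, hv n h0]
      simp [h0]
    · rw [hcc n h0]
      by_cases h1 : (n + 1).val % s = 0
      · have h2 := hv (n + 1) h1
        rw [add_sub_cancel_right] at h2
        rw [h2]
        simp [h1]
      · rw [hcc (n + 1) h1]
        simp
  · set C : ℝ := 2 * Real.pi * |θ| / L with hC
    have hC0 : 0 ≤ C := by
      rw [hC]
      have : (0 : ℝ) ≤ L := Nat.cast_nonneg _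
      positivity
    have hpt : ∀ n : ZMod (M * s), ‖(Kop (p / s) θ s L j f : Rg (M * s)) n‖ ^ 2
        ≤ C ^ 2 * ((if n.val % s = 0 then ‖f (n - 1)‖ ^ 2 else 0)
          + (if (n + 1).val % s = 0 then ‖f (n + 1)‖ ^ 2 else 0)) := by
      intro n
      rw [Kop_cc]
      by_cases h0 : n.val % s = 0
      · have h1 : (n + 1).val % s ≠ 0 := by
          intro h
          have := hv (n + 1) h
          rw [add_sub_cancel_right] at this
          omega
        rw [hcc (n + 1) h1, if_pos h0, if_neg h1, map_zero, zero_mul, sub_zero, add_zero,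
          norm_mul, mul_pow]
        have := hle n
        gcongr
      · rw [hcc n h0]
        by_cases h1 : (n + 1).val % s = 0
        · rw [if_neg h0, if_pos h1, zero_mul, zero_sub, zero_add, norm_neg, norm_mul, mul_pow,
            Complex.norm_conj]
          have := hle (n + 1)
          gcongr
        · rw [hcc (n + 1) h1, if_neg h0, if_neg h1]
          simp
    have hsum : ∑ n : ZMod (M * s), ‖(Kop (p / s) θ s L j f : Rg (M * s)) n‖ ^ 2
        ≤ C ^ 2 * ∑ n : ZMod (M * s), ‖f n‖ ^ 2 := by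
      calc _ ≤ ∑ n : ZMod (M * s), C ^ 2 * ((if n.val % s = 0 then ‖f (n - 1)‖ ^ 2 else 0)
          + (if (n + 1).val % s = 0 then ‖f (n + 1)‖ ^ 2 else 0)) :=
            Finset.sum_le_sum fun n _ => hpt n
        _ = C ^ 2 * (∑ n : ZMod (M * s), (if n.val % s = 0 then ‖f (n - 1)‖ ^ 2 else 0)
          + ∑ n : ZMod (M * s), (if (n + 1).val % s = 0 then ‖f (n + 1)‖ ^ 2 else 0)) := by
            rw [← Finset.mul_sum, Finset.sum_add_distrib]
        _ = C ^ 2 * (∑ n : ZMod (M * s), (if (n + 1).val % s = 0 then ‖f n‖ ^ 2 else 0)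
          + ∑ n : ZMod (M * s), (if n.val % s = 0 then ‖f n‖ ^ 2 else 0)) := by
            congr 2
            · refine Fintype.sum_equiv (Equiv.subRight (1 : ZMod (M * s))) _ _ fun n => ?_
              simp
            · exact Fintype.sum_equiv (Equiv.addRight (1 : ZMod (M * s))) _ _ fun n => rfl
        _ ≤ C ^ 2 * ∑ n : ZMod (M * s), ‖f n‖ ^ 2 := by
            apply mul_le_mul_of_nonneg_left _ (by positivity)
            rw [← Finset.sum_add_distrib]
            refine Finset.sum_le_sum fun n _ => ?_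
            by_cases h0 : n.val % s = 0
            · have h1 : (n + 1).val % s ≠ 0 := by
                intro h
                have := hv (n + 1) h
                rw [add_sub_cancel_right] at this
                omega
              rw [if_pos h0, if_neg h1, zero_add]
            · rw [if_neg h0, add_zero]
              split_ifs
              · exact le_refl _
              · positivity
    rw [← EuclideanSpace.norm_sq_eq, ← EuclideanSpace.norm_sq_eq, ← mul_pow] at hsum
    exact le_of_sq_le_sq hsum (by positivity)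

end Pool.Agent.H11.AM
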